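import Pool.Agent.Helper67.Aug.Word
import Pool.Agent.Helper42.T1.ZLim
import Pool.Agent.Helper39.VC.Final
import Pool.Agent.Helper39.VC4.Shapes

/-! # From the growth of the state sum to the logarithm of the invariant -/

namespace Pool.Agent.Helper67.Aug
open Filter Topology Pool.Agent.Helper39.VC Pool.Agent.Helper39.AB Pool.Agent.Helper42.T1
open Pool.Agent.Helper5.TV (lob)
open Pool.Agent.Helper52.OC (lobachevsky_eq_lob)

/-- the argument does not matter -/
theorem clog_limit {J : ℕ → ℂ} {g : ℝ}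
    (h : Tendsto (fun n : ℕ => Real.log ‖J n‖ / n) atTop (𝓝 g)) :
    Tendsto (fun n : ℕ => ((2 * Real.pi / n : ℝ) : ℂ) * Complex.log (J n)) atTop
      (𝓝 ((2 * Real.pi * g : ℝ) : ℂ)) := by
  have hp := Real.pi_pos
  have h1 := (Complex.continuous_ofReal.tendsto _).comp (h.const_mul (2*Real.pi))
  have h2 : Tendsto (fun n : ℕ => 2 * Real.pi / n * Complex.arg (J n)) atTop (𝓝 0) := by
    have h3 : Tendsto (fun n : ℕ => (2 * Real.pi ^ 2) / (n:ℝ)) atTop (𝓝 0) :=
      tendsto_const_div_atTop_nhds_zero_nat _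
    apply squeeze_zero_norm' _ h3
    filter_upwards [eventually_gt_atTop 0] with n hn
    have hn' : (0:ℝ) < n := by exact_mod_cast hn
    rw [norm_mul, Real.norm_of_nonneg (by positivity), Real.norm_eq_abs]
    have h4 := Complex.abs_arg_le_pi (J n)
    calc 2 * Real.pi / n * |Complex.arg (J n)| ≤ 2 * Real.pi / n * Real.pi := by gcongr
      _ = 2 * Real.pi ^ 2 / n := by ring
  have h5 := ((Complex.continuous_ofReal.tendsto _).comp h2).mul_const Complex.I
  have h6 := h1.add h5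
  simp only [Complex.ofReal_zero, zero_mul, add_zero] at h6
  refine h6.congr' ?_
  filter_upwards [eventually_gt_atTop 0] with n hn
  have hn' : (n:ℂ) ≠ 0 := by exact_mod_cast hn.ne'
  simp only [Function.comp_apply]
  rw [Complex.log]
  push_cast
  field_simp

/-- a polynomial factor does not matter -/
theorem log_factor {J Z : ℕ → ℂ} {d : ℕ} {g : ℝ} (hZ : ∀ᶠ n : ℕ in atTop, Z n ≠ 0)
    (hJ : ∀ᶠ n : ℕ in atTop, ‖J n‖ = (n:ℝ)^d * ‖Z n‖)
    (h : Tendsto (fun n : ℕ => Real.log ‖Z n‖ / n) atTop (𝓝 g)) :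
    Tendsto (fun n : ℕ => Real.log ‖J n‖ / n) atTop (𝓝 g) := by
  have h1 : Tendsto (fun n : ℕ => Real.log n / (n:ℝ)) atTop (𝓝 0) := by
    have := Real.isLittleO_log_id_atTop.tendsto_div_nhds_zero
    exact this.comp tendsto_natCast_atTop_atTop
  have h2 := (h1.const_mul (d:ℝ)).add h
  rw [mul_zero, zero_add] at h2
  refine h2.congr' ?_
  filter_upwards [hZ, hJ, eventually_gt_atTop 0] with n z j hn
  have hn' : (0:ℝ) < n := by exact_mod_cast hn
  rw [j, Real.log_mul (by positivity) (norm_ne_zero_iff.mpr z), Real.log_pow]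
  ring

/-- the exact formula for the invariant -/
def Exact : Prop := ∀ (n : ℕ) (_ : 0 < n) (w : List (ℤ × ℤ)) (_ : w ≠ []),
  ∃ ζ : ℂ, ‖ζ‖ = 1 ∧ augJones n (qr n) w = ζ * n * (n:ℂ)^(2*w.length) * ZZ n w

theorem jones_norm (hA : Exact) {w : List (ℤ × ℤ)} (hw : w ≠ []) {n : ℕ} (hn : 0 < n) :
    ‖augJones n (qr n) w‖ = (n:ℝ)^(2*w.length+1) * ‖ZZ n w‖ := by
  obtain ⟨ζ, h1, h2⟩ := hA n hn w hw
  rw [h2, norm_mul, norm_mul, norm_mul, h1, norm_pow, Complex.norm_natCast]
  ring

theorem jones_ne (hA : Exact) {w : List (ℤ × ℤ)} (hw : w ≠ []) :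
    ∀ᶠ n : ℕ in atTop, augJones n (qr n) w ≠ 0 := by
  filter_upwards [ZZ_ne hw, eventually_gt_atTop 0] with n h1 hn
  rw [← norm_ne_zero_iff, jones_norm hA hw hn]
  have hn' : (0:ℝ) < n := by exact_mod_cast hn
  have := norm_pos_iff.mpr h1
  positivity

/-- **the limit** -/
theorem jones_limit (hA : Exact) {w : List (ℤ × ℤ)} (hw : w ≠ []) :
    Tendsto (fun n : ℕ => ((2 * Real.pi / n : ℝ) : ℂ) * Complex.log (augJones n (qr n) w)) atTop
      (𝓝 ((4 * w.length * (8 * Pool.Agent.Helper5.TV.lobachevsky (Real.pi/4)) : ℝ) : ℂ)) := by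
  have h1 := log_factor (J := fun n => augJones n (qr n) w) (d := 2*w.length+1) (ZZ_ne hw)
    (by filter_upwards [eventually_gt_atTop 0] with n hn using jones_norm hA hw hn)
    (ZZ_limit w hw)
  have h2 := clog_limit h1
  have e : 2 * Real.pi * (16 * w.length * lob (Real.pi/4) / Real.pi)
      = 4 * w.length * (8 * lob (Real.pi/4)) := by
    have := Real.pi_pos.ne'
    field_simp
    ring
  rw [e] at h2
  rw [lobachevsky_eq_lob]
  exact h2

theorem volume_oct (w : List (ℤ × ℤ)) :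
    (augStructure w).volume = 4 * w.length * (hypVol regularIdealOct).toReal := by
  rw [augStructure_volume, hypVol_oct, lobachevsky_eq_lob, ENNReal.toReal_ofReal]
  have h4 : 0 ≤ lob (Real.pi/4) := lob_nonneg (by positivity) (by linarith [Real.pi_pos])
  positivity

end Pool.Agent.Helper67.Aug
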