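import Pool.Agent.Helper67.Aug.Rep

/-! # The complete hyperbolic structure of an augmented closed 3-braid -/

namespace Pool.Agent.Helper67.Aug
open Finset Pool.Agent.Helper5.TV Pool.Agent.Helper52.OC

variable {m : ℕ} (ε : Fin m × Bool → Bool)

theorem real_lbE (e : (aTri ε).Edge) : real (lbE ε e).1.2 (lbE ε e).2 = true := by
  obtain ⟨⟨⟨i, a, b⟩, hab⟩, rfl⟩ := Quotient.exists_rep e
  have hab' : a ≠ b := hab
  change real (lbl ε ((num m).symm i) a b).1.2 (lbl ε ((num m).symm i) a b).2 = true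
  generalize (num m).symm i = x
  obtain ⟨B, s, i⟩ := x
  unfold lbl
  rcases Bool.eq_false_or_eq_true (own B.2 i a b) with h | h
  · simp only [h, if_true]
    exact real_own _ _ _ _ _ _ hab' h
  · simp only [h, Bool.false_eq_true, if_false, pb_snd]
    exact real_prev _ _ _ _ _ _ hab' h

/-- number of quarter angles in a block -/
theorem block_sum (B : Fin m × Bool) (L : (Fin m × Bool) × Loc) :
    ∑ s : Bool, ∑ i : Fin 4, ∑ u : Fin 4, ∑ v : Fin 4,
      (if u ≠ v ∧ lbl ε (B, s, i) u v = L then kk u v else 0)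
    = (if B = L.1 then Pn B.2 (ε B) L.2 else 0) + (if pb B = L.1 then Qn B.2 (ε B) L.2 else 0) := by
  have e1 : ∀ (c : Prop) [Decidable c] (x : ℕ), (if c then x else 0) = x * (if c then 1 else 0) := by
    intro c _ x
    split_ifs <;> simp
  rw [e1 (B = L.1), e1 (pb B = L.1)]
  unfold Pn Qn
  simp only [sum_mul]
  rw [← sum_add_distrib]
  apply sum_congr rfl
  intro s _
  rw [← sum_add_distrib]
  apply sum_congr rfl
  intro i _
  rw [← sum_add_distrib]
  apply sum_congr rfl
  intro u _
  rw [← sum_add_distrib]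
  apply sum_congr rfl
  intro v _
  have e2 : lbl ε (B, s, i) u v = L ↔ (if own B.2 i u v then B else pb B) = L.1 ∧
      loc B.2 (ε B) s i u v = L.2 := Prod.ext_iff
  simp only [e2]
  rcases Bool.eq_false_or_eq_true (own B.2 i u v) with h | h
  · simp only [h, if_true]
    by_cases h1 : u ≠ v <;> by_cases h2 : loc B.2 (ε B) s i u v = L.2 <;>
      by_cases h3 : B = L.1 <;> simp [h1, h2, h3]
  · simp only [h, Bool.false_eq_true, if_false]
    by_cases h1 : u ≠ v <;> by_cases h2 : loc B.2 (ε B) s i u v = L.2 <;>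
      by_cases h3 : pb B = L.1 <;> simp [h1, h2, h3]

theorem total_sum (e : (aTri ε).Edge) :
    ∑ x : Tt m, ∑ u : Fin 4, ∑ v : Fin 4,
      (if u ≠ v ∧ lbl ε x u v = lbE ε e then kk u v else 0) = 16 := by
  set L := lbE ε e with hL
  have h1 := real_lbE ε e
  rw [← hL] at h1
  rw [Fintype.sum_prod_type]
  have h2 : ∀ B : Fin m × Bool, ∑ y : Bool × Fin 4, ∑ u : Fin 4, ∑ v : Fin 4,
      (if u ≠ v ∧ lbl ε (B, y) u v = L then kk u v else 0)
      = (if B = L.1 then Pn L.1.2 (ε L.1) L.2 else 0)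
        + (if B = nb L.1 then Qn (!L.1.2) (ε (nb L.1)) L.2 else 0) := by
    intro B
    rw [Fintype.sum_prod_type]
    refine (block_sum ε B L).trans ?_
    congr 1
    · split_ifs with h
      · rw [h]
      · rfl
    · by_cases h : pb B = L.1
      · have h' : B = nb L.1 := by rw [← h, nb_pb]
        rw [if_pos h, if_pos h', h', nb_snd]
      · rw [if_neg h, if_neg]
        intro h'
        exact h (by rw [h', pb_nb])
  rw [sum_congr rfl (fun B _ => h2 B), sum_add_distrib, sum_ite_eq' univ, sum_ite_eq' univ,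
    if_pos (mem_univ _), if_pos (mem_univ _)]
  exact PQ _ _ _ _ h1

/-- dihedral angles: right angles at the axis and at the equatorial edges -/
noncomputable def aAng (u v : Fin 4) : ℝ := kk u v * (Real.pi/4)

/-- lambda-lengths: `√2` for the axis of an octahedron, `1` for the edges of the octahedra -/
noncomputable def aLen (e : (aTri ε).Edge) : ℝ :=
  match (lbE ε e).2 with
  | Sum.inl _ => Real.sqrt 2
  | Sum.inr _ => 1

theorem kk_symm : ∀ u v : Fin 4, kk u v = kk v u := by decide
theorem kk_pos : ∀ u v : Fin 4, 0 < kk u v := by decide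

theorem edgeOf_eg (i : Fin (aTri ε).n) (a b : Fin 4) (h : a ≠ b) :
    edgeOf (aTri ε) i a b h = eg ε ((num m).symm i) a b h := by
  unfold eg
  rw [Equiv.apply_symm_apply]

/-- the structure -/
noncomputable def aStructure : IdealStructure (aTri ε) where
  ang _ u v := aAng u v
  len e := aLen ε e
  ang_symm _ a b := by unfold aAng; rw [kk_symm]
  ang_opp _ := ⟨rfl, rfl, rfl⟩
  ang_pos _ a b _ := by
    have := kk_pos a b
    have := Real.pi_pos
    unfold aAng
    positivity
  ang_sum _ := by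
    have h1 : kk 0 1 = 2 := rfl
    have h2 : kk 0 2 = 1 := rfl
    have h3 : kk 0 3 = 1 := rfl
    unfold aAng
    rw [h1, h2, h3]
    push_cast
    ring
  edge e := by
    classical
    have h1 : ∀ i : Fin (aTri ε).n, ∑ a : Fin 4, ∑ b : Fin 4,
        (if h : a ≠ b then (if edgeOf (aTri ε) i a b h = e then aAng a b else 0) else 0)
        = (((∑ u : Fin 4, ∑ v : Fin 4, (if u ≠ v ∧ lbl ε ((num m).symm i) u v = lbE ε e
          then kk u v else 0) : ℕ)) : ℝ) * (Real.pi/4) := by
      intro i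
      push_cast
      rw [sum_mul]
      apply sum_congr rfl
      intro a _
      rw [sum_mul]
      apply sum_congr rfl
      intro b _
      by_cases h : a ≠ b
      · rw [dif_pos h, edgeOf_eg]
        by_cases h2 : lbl ε ((num m).symm i) a b = lbE ε e
        · rw [if_pos ((eg_eq_iff ε _ _ _ h e).mpr h2), if_pos ⟨h, h2⟩]
          rfl
        · rw [if_neg (fun h3 => h2 ((eg_eq_iff ε _ _ _ h e).mp h3)), if_neg (fun h3 => h2 h3.2)]
          simp
      · rw [dif_neg h, if_neg (fun h3 => h h3.1)]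
        simp
    have h2 : ∑ i : Fin (m * 16), (((∑ u : Fin 4, ∑ v : Fin 4,
          (if u ≠ v ∧ lbl ε ((num m).symm i) u v = lbE ε e then kk u v else 0) : ℕ)) : ℝ)
        = ((∑ x : Tt m, ∑ u : Fin 4, ∑ v : Fin 4,
          (if u ≠ v ∧ lbl ε x u v = lbE ε e then kk u v else 0) : ℕ) : ℝ) := by
      rw [Nat.cast_sum, ← Equiv.sum_comp (num m).symm]
    have h3 := total_sum ε e
    rw [h3] at h2
    rw [sum_congr rfl (fun i _ => h1 i), ← sum_mul]
    rw [show (∑ i : Fin (aTri ε).n, (((∑ u : Fin 4, ∑ v : Fin 4,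
          (if u ≠ v ∧ lbl ε ((num m).symm i) u v = lbE ε e then kk u v else 0) : ℕ)) : ℝ))
        = ((16 : ℕ) : ℝ) from h2]
    push_cast
    ring
  len_pos e := by
    unfold aLen
    split <;> positivity
  tet i := by
    have h0 : ∀ a b (h : a ≠ b), lbE ε (edgeOf (aTri ε) i a b h) = lbl ε ((num m).symm i) a b := by
      intro a b h
      rw [edgeOf_eg, lbE_eg]
    have ax : ∀ e : (aTri ε).Edge, ∀ s, (lbE ε e).2 = Sum.inl s → aLen ε e = Real.sqrt 2 := by
      intro e s h; unfold aLen; rw [h]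
    have ay : ∀ e : (aTri ε).Edge, ∀ s, (lbE ε e).2 = Sum.inr s → aLen ε e = 1 := by
      intro e s h; unfold aLen; rw [h]
    have l01 : aLen ε (edgeOf (aTri ε) i 0 1 (by decide)) = Real.sqrt 2 :=
      ax _ _ (by rw [h0]; unfold lbl loc; rfl)
    have l23 : aLen ε (edgeOf (aTri ε) i 2 3 (by decide)) = 1 :=
      ay _ _ (by rw [h0]; unfold lbl loc; rfl)
    have l02 : aLen ε (edgeOf (aTri ε) i 0 2 (by decide)) = 1 :=
      ay _ _ (by rw [h0]; unfold lbl loc; rfl)
    have l13 : aLen ε (edgeOf (aTri ε) i 1 3 (by decide)) = 1 :=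
      ay _ _ (by rw [h0]; unfold lbl loc; rfl)
    have l03 : aLen ε (edgeOf (aTri ε) i 0 3 (by decide)) = 1 :=
      ay _ _ (by rw [h0]; unfold lbl loc; rfl)
    have l12 : aLen ε (edgeOf (aTri ε) i 1 2 (by decide)) = 1 :=
      ay _ _ (by rw [h0]; unfold lbl loc; rfl)
    have a1 : aAng 0 1 = Real.pi/2 := by
      have h1 : kk 0 1 = 2 := rfl
      unfold aAng; rw [h1]; push_cast; ring
    have a2 : aAng 0 2 = Real.pi/4 := by
      have h1 : kk 0 2 = 1 := rfl
      unfold aAng; rw [h1]; push_cast; ring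
    have a3 : aAng 0 3 = Real.pi/4 := by
      have h1 : kk 0 3 = 1 := rfl
      unfold aAng; rw [h1]; push_cast; ring
    have hs : Real.sqrt 2 * Real.sqrt 2 = 2 := Real.mul_self_sqrt (by norm_num)
    refine ⟨Real.sqrt 2, by positivity, ?_, ?_, ?_⟩
    · simp only [l01, l23, a1, Real.sin_pi_div_two]
    · simp only [l02, l13, a2, Real.sin_pi_div_four]
      linarith
    · simp only [l03, l12, a3, Real.sin_pi_div_four]
      linarith

theorem aStructure_volume : (aStructure ε).volume = 4 * m * (8 * lobachevsky (Real.pi/4)) := by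
  have h0 : lobachevsky (Real.pi/2) = 0 := by rw [lobachevsky_eq_lob, lob_pi_div_two]
  have a1 : aAng 0 1 = Real.pi/2 := by
    have h1 : kk 0 1 = 2 := rfl
    unfold aAng; rw [h1]; push_cast; ring
  have a2 : aAng 0 2 = Real.pi/4 := by
    have h1 : kk 0 2 = 1 := rfl
    unfold aAng; rw [h1]; push_cast; ring
  have a3 : aAng 0 3 = Real.pi/4 := by
    have h1 : kk 0 3 = 1 := rfl
    unfold aAng; rw [h1]; push_cast; ring
  show ∑ i : Fin (m * 16), (lobachevsky (aAng 0 1) + lobachevsky (aAng 0 2)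
      + lobachevsky (aAng 0 3)) = _
  rw [sum_const, card_univ, Fintype.card_fin, nsmul_eq_mul, a1, a2, a3, h0]
  push_cast
  ring

end Pool.Agent.Helper67.Aug
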