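import Pool.Agent.Helper67.Aug.Lab

/-! # The triangulation of the complement of an augmented closed 3-braid -/

namespace Pool.Agent.Helper67.Aug
open Finset Pool.Agent.Helper5.TV

variable {m : ℕ}

/-- numbering of the tetrahedra -/
def num (m : ℕ) : Tt m ≃ Fin (m * 16) :=
  (Equiv.prodAssoc (Fin m) Bool (Bool × Fin 4)).trans
    ((Equiv.prodCongr (Equiv.refl (Fin m))
      ((Equiv.prodCongr finTwoEquiv.symm
        ((Equiv.prodCongr finTwoEquiv.symm (Equiv.refl (Fin 4))).trans finProdFinEquiv)).trans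
          finProdFinEquiv)).trans finProdFinEquiv)

/-- the face pairings -/
def aGluing (ε : Fin m × Bool → Bool) : Gluing where
  n := m * 16
  adj i f := num m (aAdj ε ((num m).symm i) f)
  perm i f := aPerm ε ((num m).symm i) f
  adj_adj i f := by
    rw [Equiv.symm_apply_apply, aAdj_adj, Equiv.apply_symm_apply]
  perm_perm i f := by
    rw [Equiv.symm_apply_apply, aPerm_perm]
  no_fix i f := by
    rintro ⟨h1, h2⟩
    apply a_no_fix ε ((num m).symm i) f
    refine ⟨?_, h2⟩
    have := congrArg (num m).symm h1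
    rwa [Equiv.symm_apply_apply] at this

/-- label of an edge: interface and local label -/
def lbl (ε : Fin m × Bool → Bool) (x : Tt m) (u v : Fin 4) : (Fin m × Bool) × Loc :=
  (if own x.1.2 x.2.2 u v then x.1 else pb x.1, loc x.1.2 (ε x.1) x.2.1 x.2.2 u v)

/-- direction of an edge -/
def dir (ε : Fin m × Bool → Bool) (x : Tt m) (u v : Fin 4) : Bool := dr x.1.2 (ε x.1) x.2.2 u v

theorem glue_up (ε : Fin m × Bool → Bool) (B : Fin m × Bool) (s : Bool) (i u v : Fin 4)
    (h : up B.2 i = true) (huv : u ≠ v) (hu : u ≠ 0) (hv : v ≠ 0) :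
    lbl ε (B, s, i) u v = lbl ε (nb B, xor s (tt (!B.2) (ε (nb B)) i), i)
      (pm (tt (!B.2) (ε (nb B)) i) u) (pm (tt (!B.2) (ε (nb B)) i) v) ∧
    dir ε (B, s, i) u v = dir ε (nb B, xor s (tt (!B.2) (ε (nb B)) i), i)
      (pm (tt (!B.2) (ε (nb B)) i) u) (pm (tt (!B.2) (ε (nb B)) i) v) := by
  obtain ⟨h1, h2, h3, h4⟩ := loc_up B.2 (ε (nb B)) (ε B) s i u v h huv hu hv
  simp only [pm_eq]
  constructor
  · unfold lbl
    simp only [nb_snd, h1, h2, h3, pb_nb]
    simp
  · unfold dir
    simp only [nb_snd]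
    exact h4

theorem xor_xor' (s w : Bool) : xor (xor s w) w = s := by revert s w; decide

theorem pm_pm (w : Bool) (u : Fin 4) : pm w (pm w u) = u := by revert w u; decide

theorem pm_ne0 {w : Bool} {u : Fin 4} (h : u ≠ 1) : pm w u ≠ 0 := by revert w u; decide

theorem lbl_glue (ε : Fin m × Bool → Bool) (x : Tt m) (f u v : Fin 4) (huv : u ≠ v) (hu : u ≠ f)
    (hv : v ≠ f) :
    lbl ε x u v = lbl ε (aAdj ε x f) (aPerm ε x f u) (aPerm ε x f v) ∧
    dir ε x u v = dir ε (aAdj ε x f) (aPerm ε x f u) (aPerm ε x f v) := by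
  obtain ⟨B, s, i⟩ := x
  have h4 : ∀ f : Fin 4, f = 0 ∨ f = 1 ∨ f = 2 ∨ f = 3 := by decide
  rcases h4 f with rfl | rfl | rfl | rfl
  · by_cases h : up B.2 i = true
    · have := glue_up ε B s i u v h huv hu hv
      simpa [aAdj, aPerm, h] using this
    · simp only [Bool.not_eq_true] at h
      simp only [aAdj, aPerm, h, if_true, Bool.false_eq_true, if_false, Equiv.Perm.coe_one, id_eq]
      constructor
      · unfold lbl
        simp only [← loc_in0 B.2 (ε B) s i u v huv hu hv]
      · rfl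
  · by_cases h : up B.2 i = true
    · simp only [aAdj, aPerm, h, if_true, one_ne_zero, if_false, Equiv.Perm.coe_one, id_eq]
      constructor
      · unfold lbl
        simp only [← loc_in1 B.2 (ε B) s i u v huv hu hv]
      · rfl
    · simp only [Bool.not_eq_true] at h
      simp only [aAdj, aPerm, h, if_true, one_ne_zero, if_false, Bool.false_eq_true]
      have h' : up (pb B).2 i = true := by rw [pb_snd, up_not, h]; rfl
      have key := glue_up ε (pb B) (xor s (tt B.2 (ε B) i)) i (pm (tt B.2 (ε B) i) u)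
        (pm (tt B.2 (ε B) i) v) h' (fun e => huv ((pm _).injective e)) (pm_ne0 hu) (pm_ne0 hv)
      rw [nb_pb, pb_snd, Bool.not_not, xor_xor', pm_pm, pm_pm] at key
      exact ⟨key.1.symm, key.2.symm⟩
  · obtain ⟨h1, h2, h3⟩ := loc_in2 B.2 (ε B) s i u v huv hu hv
    simp only [aAdj, aPerm]
    constructor
    · unfold lbl
      simp [h1, h2]
    · unfold dir
      simp [h3]
  · have hs : ∀ w : Fin 4, w ≠ 3 → Equiv.swap 2 3 w ≠ (2 : Fin 4) := by decide
    obtain ⟨h1, h2, h3⟩ := loc_in2 B.2 (ε B) s (i-1) (Equiv.swap 2 3 u) (Equiv.swap 2 3 v)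
      (fun e => huv ((Equiv.swap 2 3).injective e)) (hs u hu) (hs v hv)
    simp only [aAdj, aPerm]
    rw [Equiv.swap_apply_self, Equiv.swap_apply_self, sub_add_cancel] at h1 h2 h3
    constructor
    · unfold lbl
      simp [h1, h2]
    · unfold dir
      simp [h3]

end Pool.Agent.Helper67.Aug
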