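import Pool.Agent.Helper67.Aug.Tri

/-! # Labels and directions of the edges -/

namespace Pool.Agent.Helper67.Aug
open Finset Pool.Agent.Helper5.TV

/-- kinds of edges: axis of an octahedron, edge from an apex to the puncture `p`, equatorial edge -/
abbrev Loc := Bool ⊕ (Fin 4 ⊕ Fin 4)

/-- does the edge belong to the interface above the block (or to the inside of the block)? -/
def own (e : Bool) (i u v : Fin 4) : Bool :=
  if u = 1 ∨ v = 1 then true else if u = 0 ∨ v = 0 then false else up e i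

/-- half twist below a block of type `e` -/
def th (e t : Bool) (p : Fin 4) : Fin 4 :=
  if t then (if p = tpos e then tpos e + 1 else if p = tpos e + 1 then tpos e else p) else p

/-- local label -/
def loc (e t s : Bool) (i u v : Fin 4) : Loc :=
  if (u = 0 ∧ v = 1) ∨ (u = 1 ∧ v = 0) then Sum.inl s
  else if u = 1 ∨ v = 1 then Sum.inr (Sum.inl (i + (if u = 3 ∨ v = 3 then 1 else 0)))
  else if u = 0 ∨ v = 0 then Sum.inr (Sum.inl (th e t (i + (if u = 3 ∨ v = 3 then 1 else 0))))
  else Sum.inr (Sum.inr i)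

/-- direction -/
def dr (e t : Bool) (i u v : Fin 4) : Bool :=
  if u = 0 ∨ u = 1 ∨ v = 0 ∨ v = 1 then decide (u < v)
  else xor (u == 2) (!up e i && tt e t i)

/-- `pm` as a function -/
def pmf (w : Bool) (u : Fin 4) : Fin 4 :=
  if w then (if u = 0 then 1 else if u = 1 then 0 else if u = 2 then 3 else 2)
  else (if u = 0 then 1 else if u = 1 then 0 else u)

theorem pm_eq (w : Bool) (u : Fin 4) : pm w u = pmf w u := by revert w u; decide

theorem loc_up : ∀ (e t t0 s : Bool) (i u v : Fin 4), up e i = true → u ≠ v → u ≠ 0 → v ≠ 0 →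
    own e i u v = true ∧ own (!e) i (pmf (tt (!e) t i) u) (pmf (tt (!e) t i) v) = false ∧
    loc e t0 s i u v = loc (!e) t (xor s (tt (!e) t i)) i (pmf (tt (!e) t i) u)
      (pmf (tt (!e) t i) v) ∧
    dr e t0 i u v = dr (!e) t i (pmf (tt (!e) t i) u) (pmf (tt (!e) t i) v) := by decide

theorem loc_in0 : ∀ (e t s : Bool) (i u v : Fin 4), u ≠ v → u ≠ 0 → v ≠ 0 →
    loc e t s i u v = loc e t (!s) i u v := by decide

theorem loc_in1 : ∀ (e t s : Bool) (i u v : Fin 4), u ≠ v → u ≠ 1 → v ≠ 1 →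
    loc e t s i u v = loc e t (!s) i u v := by decide

theorem loc_in2 : ∀ (e t s : Bool) (i u v : Fin 4), u ≠ v → u ≠ 2 → v ≠ 2 →
    own e i u v = own e (i+1) (Equiv.swap 2 3 u) (Equiv.swap 2 3 v) ∧
    loc e t s i u v = loc e t s (i+1) (Equiv.swap 2 3 u) (Equiv.swap 2 3 v) ∧
    dr e t i u v = dr e t (i+1) (Equiv.swap 2 3 u) (Equiv.swap 2 3 v) := by decide

theorem loc_symm : ∀ (e t s : Bool) (i u v : Fin 4),
    own e i u v = own e i v u ∧ loc e t s i u v = loc e t s i v u := by decide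

theorem dr_symm : ∀ (e t : Bool) (i u v : Fin 4), u ≠ v → dr e t i u v ≠ dr e t i v u := by decide

/-- angles as multiples of `π/4` -/
def kk (u v : Fin 4) : ℕ := if (u < 2) = (v < 2) then 2 else 1

def Pn (e t : Bool) (ℓ : Loc) : ℕ := ∑ s : Bool, ∑ i : Fin 4, ∑ u : Fin 4, ∑ v : Fin 4,
  if u ≠ v ∧ own e i u v = true ∧ loc e t s i u v = ℓ then kk u v else 0

def Qn (e t : Bool) (ℓ : Loc) : ℕ := ∑ s : Bool, ∑ i : Fin 4, ∑ u : Fin 4, ∑ v : Fin 4,
  if u ≠ v ∧ own e i u v = false ∧ loc e t s i u v = ℓ then kk u v else 0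

/-- possible local labels at the interface above a block of type `e` -/
def real (e : Bool) : Loc → Bool
  | Sum.inl _ => true
  | Sum.inr (Sum.inl _) => true
  | Sum.inr (Sum.inr i) => up e i

theorem PQ : ∀ (e t t' : Bool) (ℓ : Loc), real e ℓ = true → Pn e t ℓ + Qn (!e) t' ℓ = 16 := by
  decide

theorem real_own : ∀ (e t s : Bool) (i u v : Fin 4), u ≠ v → own e i u v = true →
    real e (loc e t s i u v) = true := by decide

theorem real_prev : ∀ (e t s : Bool) (i u v : Fin 4), u ≠ v → own e i u v = false →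
    real (!e) (loc e t s i u v) = true := by decide

end Pool.Agent.Helper67.Aug
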