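import Pool.Agent.Helper67.Aug.Str

/-! # Every edge is determined by its label -/

namespace Pool.Agent.Helper67.Aug
open Finset Pool.Agent.Helper5.TV Pool.Agent.Helper52.OC

variable {m : ℕ} (ε : Fin m × Bool → Bool)

theorem up_pred (e : Bool) (i : Fin 4) : up e (i-1) = !up e i := by revert e i; decide

theorem cu_flip (B : Fin m × Bool) (s : Bool) (i : Fin 4) : cu ε B s i = cu ε B (!s) i := by
  by_cases h : up B.2 i = true
  · have h' : up B.2 (i-1) = false := by rw [up_pred, h]; rfl
    have e1 := cu_three ε B s (i-1)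
    have e2 := cu_three ε B (!s) (i-1)
    rw [sub_add_cancel] at e1 e2
    rw [← e1, ← e2]
    refine (eg_glue ε (B, s, i-1) 0 1 3 (by decide) (by decide) (by decide)).trans ?_
    exact eg_congr ε (by simp [aAdj, h']) (by simp [aPerm, h']) (by simp [aPerm, h']) _ _
  · simp only [Bool.not_eq_true] at h
    refine (eg_glue ε (B, s, i) 0 1 2 (by decide) (by decide) (by decide)).trans ?_
    exact eg_congr ε (by simp [aAdj, h]) (by simp [aPerm, h]) (by simp [aPerm, h]) _ _

theorem cl_flip (B : Fin m × Bool) (s : Bool) (i : Fin 4) : cl ε B s i = cl ε B (!s) i := by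
  by_cases h : up B.2 i = true
  · refine (eg_glue ε (B, s, i) 1 0 2 (by decide) (by decide) (by decide)).trans ?_
    exact eg_congr ε (by simp [aAdj, h]) (by simp [aPerm, h]) (by simp [aPerm, h]) _ _
  · simp only [Bool.not_eq_true] at h
    have h' : up B.2 (i-1) = true := by rw [up_pred, h]; rfl
    have e1 := cl_three ε B s (i-1)
    have e2 := cl_three ε B (!s) (i-1)
    rw [sub_add_cancel] at e1 e2
    rw [← e1, ← e2]
    refine (eg_glue ε (B, s, i-1) 1 0 3 (by decide) (by decide) (by decide)).trans ?_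
    exact eg_congr ε (by simp [aAdj, h']) (by simp [aPerm, h']) (by simp [aPerm, h']) _ _

theorem ce_flip (B : Fin m × Bool) (s : Bool) (i : Fin 4) : ce ε B s i = ce ε B (!s) i := by
  by_cases h : up B.2 i = true
  · refine (eg_glue ε (B, s, i) 1 2 3 (by decide) (by decide) (by decide)).trans ?_
    exact eg_congr ε (by simp [aAdj, h]) (by simp [aPerm, h]) (by simp [aPerm, h]) _ _
  · simp only [Bool.not_eq_true] at h
    refine (eg_glue ε (B, s, i) 0 2 3 (by decide) (by decide) (by decide)).trans ?_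
    exact eg_congr ε (by simp [aAdj, h]) (by simp [aPerm, h]) (by simp [aPerm, h]) _ _

theorem cu_false (B : Fin m × Bool) (s : Bool) (i : Fin 4) : cu ε B s i = cu ε B false i := by
  cases s
  · rfl
  · exact cu_flip ε B true i

theorem ce_false (B : Fin m × Bool) (s : Bool) (i : Fin 4) : ce ε B s i = ce ε B false i := by
  cases s
  · rfl
  · exact ce_flip ε B true i

theorem th_dn (e t : Bool) (i : Fin 4) : up e i = false →
    (tt e t i = false → th e t i = i) ∧ (tt e t i = true → th e t i = i + 1) := by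
  revert e t i; decide

theorem th_up (e t : Bool) (i : Fin 4) : up e i = true →
    (tt e t (i-1) = false → th e t i = i) ∧ (tt e t (i-1) = true → th e t i = i - 1) := by
  revert e t i; decide

theorem cl_prev (B : Fin m × Bool) (s : Bool) (i : Fin 4) :
    cl ε B s i = cu ε (pb B) false (th B.2 (ε B) i) := by
  by_cases h : up B.2 i = true
  · have h' : up B.2 (i-1) = false := by rw [up_pred, h]; rfl
    have e1 := cl_three ε B s (i-1)
    rw [sub_add_cancel] at e1
    obtain ⟨g1, g2⟩ := th_up B.2 (ε B) i h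
    rw [← e1, ← cu_false ε (pb B) (xor s (tt B.2 (ε B) (i-1)))]
    refine (eg_glue ε (B, s, i-1) 1 0 3 (by decide) (by decide) (by decide)).trans ?_
    rcases Bool.eq_false_or_eq_true (tt B.2 (ε B) (i-1)) with hw | hw
    · rw [g2 hw]
      exact eg_congr ε (by simp [aAdj, h']) (by simp [aPerm, h', hw]; decide)
        (by simp [aPerm, h', hw]; decide) _ _
    · have e2 := cu_three ε (pb B) (xor s (tt B.2 (ε B) (i-1))) (i-1)
      rw [sub_add_cancel] at e2
      rw [g1 hw, ← e2]
      exact eg_congr ε (by simp [aAdj, h']) (by simp [aPerm, h', hw]; decide)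
        (by simp [aPerm, h', hw]; decide) _ _
  · simp only [Bool.not_eq_true] at h
    obtain ⟨g1, g2⟩ := th_dn B.2 (ε B) i h
    rw [← cu_false ε (pb B) (xor s (tt B.2 (ε B) i))]
    refine (eg_glue ε (B, s, i) 1 0 2 (by decide) (by decide) (by decide)).trans ?_
    rcases Bool.eq_false_or_eq_true (tt B.2 (ε B) i) with hw | hw
    · rw [g2 hw, ← cu_three]
      exact eg_congr ε (by simp [aAdj, h]) (by simp [aPerm, h, hw]; decide)
        (by simp [aPerm, h, hw]; decide) _ _
    · rw [g1 hw]
      exact eg_congr ε (by simp [aAdj, h]) (by simp [aPerm, h, hw]; decide)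
        (by simp [aPerm, h, hw]; decide) _ _

theorem ce_prev (B : Fin m × Bool) (s : Bool) (i : Fin 4) (h : up B.2 i = false) :
    ce ε B s i = ce ε (pb B) false i := by
  rw [← ce_false ε (pb B) (xor s (tt B.2 (ε B) i))]
  refine (eg_glue ε (B, s, i) 1 2 3 (by decide) (by decide) (by decide)).trans ?_
  rcases Bool.eq_false_or_eq_true (tt B.2 (ε B) i) with hw | hw
  · refine (eg_congr ε (x := aAdj ε (B, s, i) 1) (y := (pb B, xor s (tt B.2 (ε B) i), i)) (u' := 3)
      (v' := 2) (by simp [aAdj, h]) (by simp [aPerm, h, hw]; decide)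
      (by simp [aPerm, h, hw]; decide) _ (by decide)).trans ?_
    exact eg_symm ε _ _ _ _
  · exact eg_congr ε (by simp [aAdj, h]) (by simp [aPerm, h, hw]; decide)
      (by simp [aPerm, h, hw]; decide) _ _

theorem ca_zero (B : Fin m × Bool) (s : Bool) (i : Fin 4) : ca ε B s i = ca ε B s 0 := by
  have h0 := ca_succ ε B s 0
  have h1 := ca_succ ε B s 1
  have h2 := ca_succ ε B s 2
  fin_cases i
  · rfl
  · exact h0.symm
  · exact (h0.trans h1).symm
  · exact (h0.trans (h1.trans h2)).symm

/-- the edge with a given label -/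
def rep (L : (Fin m × Bool) × Loc) : (aTri ε).Edge :=
  match L.2 with
  | Sum.inl s => ca ε L.1 s 0
  | Sum.inr (Sum.inl p) => cu ε L.1 false p
  | Sum.inr (Sum.inr i) => ce ε L.1 false i

theorem eg_rep (x : Tt m) (u v : Fin 4) (h : u ≠ v) : eg ε x u v h = rep ε (lbl ε x u v) := by
  have main : ∀ (x : Tt m) (u v : Fin 4) (h : u ≠ v), u < v → eg ε x u v h = rep ε (lbl ε x u v) := by
    intro x u v h huv
    obtain ⟨B, s, i⟩ := x
    have hc : (u = 0 ∧ v = 1) ∨ (u = 0 ∧ v = 2) ∨ (u = 0 ∧ v = 3) ∨ (u = 1 ∧ v = 2) ∨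
        (u = 1 ∧ v = 3) ∨ (u = 2 ∧ v = 3) := by
      revert u v; decide
    rcases hc with ⟨rfl, rfl⟩ | ⟨rfl, rfl⟩ | ⟨rfl, rfl⟩ | ⟨rfl, rfl⟩ | ⟨rfl, rfl⟩ | ⟨rfl, rfl⟩
    · exact ca_zero ε B s i
    · refine (cl_prev ε B s i).trans ?_
      unfold lbl own loc rep
      simp
    · refine (cl_three ε B s i).trans ((cl_prev ε B s (i+1)).trans ?_)
      unfold lbl own loc rep
      simp
    · refine (cu_false ε B s i).trans ?_
      unfold lbl own loc rep
      simp
    · refine (cu_three ε B s i).trans ((cu_false ε B s (i+1)).trans ?_)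
      unfold lbl own loc rep
      simp
    · by_cases hu : up B.2 i = true
      · refine (ce_false ε B s i).trans ?_
        unfold lbl own loc rep
        simp [hu]
      · simp only [Bool.not_eq_true] at hu
        refine (ce_prev ε B s i hu).trans ?_
        unfold lbl own loc rep
        simp [hu]
  rcases lt_or_gt_of_ne h with h1 | h1
  · exact main x u v h h1
  · rw [eg_symm, lbl_symm]
    exact main x v u h.symm h1

/-- two edges of tetrahedra are identified if and only if their labels are equal -/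
theorem eg_eq_iff (x : Tt m) (u v : Fin 4) (h : u ≠ v) (e : (aTri ε).Edge) :
    eg ε x u v h = e ↔ lbl ε x u v = lbE ε e := by
  constructor
  · rintro rfl
    exact (lbE_eg ε x u v h).symm
  · intro h1
    rw [eg_rep, h1]
    obtain ⟨⟨⟨i, a, b⟩, hab⟩, rfl⟩ := Quotient.exists_rep e
    have e1 : (Quotient.mk (aTri ε).edgeSetoid ⟨(i, a, b), hab⟩ : (aTri ε).Edge)
        = eg ε ((num m).symm i) a b hab := by
      unfold eg edgeOf
      rw [Equiv.apply_symm_apply]
    rw [e1, lbE_eg]
    exact (eg_rep ε _ _ _ _).symm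

end Pool.Agent.Helper67.Aug
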