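import Pool.Agent.Helper67.Aug.Glue
import Pool.Agent.Helper52.OC.Octa

/-! # The complete hyperbolic structure of an augmented closed 3-braid -/

namespace Pool.Agent.Helper67.Aug
open Finset Pool.Agent.Helper5.TV Pool.Agent.Helper52.OC

variable {m : ℕ}

/-- label of a directed edge -/
def lbD (ε : Fin m × Bool → Bool) (e : (aGluing ε).Dir) : (Fin m × Bool) × Loc :=
  lbl ε ((num m).symm e.1.1) e.1.2.1 e.1.2.2

/-- direction -/
def drD (ε : Fin m × Bool → Bool) (e : (aGluing ε).Dir) : Bool :=
  dir ε ((num m).symm e.1.1) e.1.2.1 e.1.2.2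

theorem lbD_glue (ε : Fin m × Bool → Bool) {e e' : (aGluing ε).Dir} (h : (aGluing ε).Glue e e') :
    lbD ε e = lbD ε e' ∧ drD ε e = drD ε e' := by
  cases h with
  | mk i f a b h ha hb =>
    have := lbl_glue ε ((num m).symm i) f a b h ha hb
    unfold lbD drD
    simp only [aGluing, Equiv.symm_apply_apply]
    exact this

theorem lbl_symm (ε : Fin m × Bool → Bool) (x : Tt m) (u v : Fin 4) : lbl ε x u v = lbl ε x v u := by
  unfold lbl
  obtain ⟨h1, h2⟩ := loc_symm x.1.2 (ε x.1) x.2.1 x.2.2 u v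
  rw [h1, h2]

theorem lbD_rev (ε : Fin m × Bool → Bool) (e : (aGluing ε).Dir) :
    lbD ε ((aGluing ε).rev e) = lbD ε e ∧ drD ε ((aGluing ε).rev e) ≠ drD ε e := by
  constructor
  · exact lbl_symm ε _ _ _
  · exact dr_symm _ _ _ _ _ e.2.symm

/-- the ideal triangulation of the complement -/
def aTri (ε : Fin m × Bool → Bool) : IdealTri where
  toGluing := aGluing ε
  no_rev := by
    intro e he
    have key : ∀ e e' : (aGluing ε).Dir, Relation.EqvGen (aGluing ε).Glue e e' →
        drD ε e = drD ε e' := by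
      intro e e' h
      induction h with
      | rel x y h => exact (lbD_glue ε h).2
      | refl x => rfl
      | symm x y _ ih => exact ih.symm
      | trans x y z _ _ ih1 ih2 => exact ih1.trans ih2
    exact (lbD_rev ε e).2 (key _ _ he).symm

theorem lbD_edge (ε : Fin m × Bool → Bool) {e e' : (aTri ε).Dir}
    (h : (aTri ε).edgeSetoid e e') : lbD ε e = lbD ε e' := by
  change Relation.EqvGen _ e e' at h
  induction h with
  | rel x y h =>
    rcases h with h | h
    · exact (lbD_glue ε h).1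
    · rw [h]
      exact (lbD_rev ε x).1.symm
  | refl x => rfl
  | symm x y _ ih => exact ih.symm
  | trans x y z _ _ ih1 ih2 => exact ih1.trans ih2

/-- label of an edge -/
def lbE (ε : Fin m × Bool → Bool) (e : (aTri ε).Edge) : (Fin m × Bool) × Loc :=
  Quotient.lift (fun e : (aTri ε).Dir => lbD ε e) (fun _ _ h => lbD_edge ε h) e

/-- the edge between `u` and `v` of the tetrahedron `x` -/
def eg (ε : Fin m × Bool → Bool) (x : Tt m) (u v : Fin 4) (h : u ≠ v) : (aTri ε).Edge :=
  edgeOf (aTri ε) (num m x) u v h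

theorem lbE_eg (ε : Fin m × Bool → Bool) (x : Tt m) (u v : Fin 4) (h : u ≠ v) :
    lbE ε (eg ε x u v h) = lbl ε x u v := by
  change lbl ε ((num m).symm (num m x)) u v = _
  rw [Equiv.symm_apply_apply]

theorem eg_symm (ε : Fin m × Bool → Bool) (x : Tt m) (u v : Fin 4) (h : u ≠ v) :
    eg ε x u v h = eg ε x v u h.symm := by
  apply Quotient.sound
  exact Relation.EqvGen.rel _ _ (Or.inr rfl)

theorem edgeOf_glue (T : IdealTri) (i : Fin T.n) (f u v : Fin 4) (h : u ≠ v) (hu : u ≠ f)
    (hv : v ≠ f) : edgeOf T i u v h = edgeOf T (T.adj i f) (T.perm i f u) (T.perm i f v)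
      (fun e => h ((T.perm i f).injective e)) :=
  Quotient.sound (Relation.EqvGen.rel _ _ (Or.inl (Gluing.Glue.mk i f u v h hu hv)))

theorem edgeOf_congr (T : IdealTri) {i i' : Fin T.n} {u v u' v' : Fin 4} (hi : i = i') (hu : u = u')
    (hv : v = v') (h : u ≠ v) (h' : u' ≠ v') : edgeOf T i u v h = edgeOf T i' u' v' h' := by
  subst hi hu hv; rfl

theorem eg_glue (ε : Fin m × Bool → Bool) (x : Tt m) (f u v : Fin 4) (h : u ≠ v) (hu : u ≠ f)
    (hv : v ≠ f) : eg ε x u v h = eg ε (aAdj ε x f) (aPerm ε x f u) (aPerm ε x f v)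
      (fun e => h ((aPerm ε x f).injective e)) := by
  have e1 : (aTri ε).adj (num m x) f = num m (aAdj ε x f) := by
    change num m (aAdj ε ((num m).symm (num m x)) f) = _
    rw [Equiv.symm_apply_apply]
  have e2 : (aTri ε).perm (num m x) f = aPerm ε x f := by
    change aPerm ε ((num m).symm (num m x)) f = _
    rw [Equiv.symm_apply_apply]
  exact (edgeOf_glue (aTri ε) (num m x) f u v h hu hv).trans
    (edgeOf_congr _ e1 (by rw [e2]) (by rw [e2]) _ _)

theorem eg_congr (ε : Fin m × Bool → Bool) {x y : Tt m} {u v u' v' : Fin 4} (hx : x = y) (hu : u = u')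
    (hv : v = v') (h : u ≠ v) (h' : u' ≠ v') : eg ε x u v h = eg ε y u' v' h' := by
  subst hx hu hv; rfl

/-! ## Representatives of the edges -/

variable (ε : Fin m × Bool → Bool)

/-- vertical edge at the puncture `i`, upper apex -/
def cu (B : Fin m × Bool) (s : Bool) (i : Fin 4) : (aTri ε).Edge := eg ε (B, s, i) 1 2 (by decide)

/-- vertical edge at the puncture `i`, lower apex -/
def cl (B : Fin m × Bool) (s : Bool) (i : Fin 4) : (aTri ε).Edge := eg ε (B, s, i) 0 2 (by decide)

/-- equatorial edge -/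
def ce (B : Fin m × Bool) (s : Bool) (i : Fin 4) : (aTri ε).Edge := eg ε (B, s, i) 2 3 (by decide)

/-- axis -/
def ca (B : Fin m × Bool) (s : Bool) (i : Fin 4) : (aTri ε).Edge := eg ε (B, s, i) 0 1 (by decide)

theorem ca_succ (B : Fin m × Bool) (s : Bool) (i : Fin 4) : ca ε B s i = ca ε B s (i+1) := by
  refine (eg_glue ε (B, s, i) 2 0 1 (by decide) (by decide) (by decide)).trans ?_
  exact eg_congr ε rfl (by simp [aPerm]; decide) (by simp [aPerm]; decide) _ _

theorem cu_three (B : Fin m × Bool) (s : Bool) (i : Fin 4) :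
    eg ε (B, s, i) 1 3 (by decide) = cu ε B s (i+1) := by
  refine (eg_glue ε (B, s, i) 2 1 3 (by decide) (by decide) (by decide)).trans ?_
  exact eg_congr ε rfl (by simp [aPerm]; decide) (by simp [aPerm]) _ _

theorem cl_three (B : Fin m × Bool) (s : Bool) (i : Fin 4) :
    eg ε (B, s, i) 0 3 (by decide) = cl ε B s (i+1) := by
  refine (eg_glue ε (B, s, i) 2 0 3 (by decide) (by decide) (by decide)).trans ?_
  exact eg_congr ε rfl (by simp [aPerm]; decide) (by simp [aPerm]) _ _

end Pool.Agent.Helper67.Aug
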