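import Pool.Agent.Helper5.TV.Defs

/-! # Octahedral triangulations: blocks of two regular ideal octahedra

A block is a four-punctured sphere times an interval, with a curve pinched at the bottom and a
curve pinched at the top, which meet twice.  It consists of two regular ideal octahedra: the
punctures `0, 1, 2, 3` are the four equatorial vertices, the pinched curves give the two apices.
Each octahedron is cut into four tetrahedra; the `i`-th one has the vertices
`0` = lower apex, `1` = upper apex, `2` = puncture `i`, `3` = puncture `i + 1` (mod 4).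

In a block of type `e = false` the lower curve separates the punctures `{0,1}` and `{2,3}` and the
upper curve separates `{1,2}` and `{3,0}`; in a block of type `e = true` it is the other way
round. -/

namespace Pool.Agent.Helper67.Aug
open Finset Pool.Agent.Helper5.TV

/-- parity of the number of an equatorial edge -/
def par (i : Fin 4) : Bool := i == 1 || i == 3

/-- is the upper face of the `i`-th tetrahedron of an octahedron in a block of type `e` a face of
the upper pairs of pants? Otherwise the lower face is a face of the lower pairs of pants. -/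
def up (e : Bool) (i : Fin 4) : Bool := par i != e

/-- the edge between the two punctures which are exchanged by the half twists below a block of
type `e` -/
def tpos (e : Bool) : Fin 4 := if e then 1 else 0

/-- is the face above the edge `i` changed by the half twists (`t`: odd number of half twists)? -/
def tt (e t : Bool) (i : Fin 4) : Bool := t && (i == tpos e)

/-- gluing map between an upper and a lower face: the upper apex is glued to the lower apex; a half
twist exchanges the two punctures -/
def pm (w : Bool) : Equiv.Perm (Fin 4) :=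
  if w then Equiv.swap 0 1 * Equiv.swap 2 3 else Equiv.swap 0 1

variable {m : ℕ}

/-- the next block -/
def nb (B : Fin m × Bool) : Fin m × Bool :=
  if B.2 then (finRotate m B.1, false) else (B.1, true)

/-- the previous block -/
def pb (B : Fin m × Bool) : Fin m × Bool :=
  if B.2 then (B.1, false) else ((finRotate m).symm B.1, true)

theorem nb_snd (B : Fin m × Bool) : (nb B).2 = !B.2 := by
  obtain ⟨p, e⟩ := B
  cases e <;> rfl

theorem pb_snd (B : Fin m × Bool) : (pb B).2 = !B.2 := by
  obtain ⟨p, e⟩ := B
  cases e <;> rfl

theorem pb_nb (B : Fin m × Bool) : pb (nb B) = B := by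
  obtain ⟨p, e⟩ := B
  cases e
  · rfl
  · exact Prod.ext (Equiv.symm_apply_apply (finRotate m) p) rfl

theorem nb_pb (B : Fin m × Bool) : nb (pb B) = B := by
  obtain ⟨p, e⟩ := B
  cases e
  · exact Prod.ext (Equiv.apply_symm_apply (finRotate m) p) rfl
  · rfl

/-- the tetrahedra: block, octahedron, number -/
abbrev Tt (m : ℕ) := (Fin m × Bool) × Bool × Fin 4

/-- the neighbour at the face opposite to `f`; `ε B` is the parity of the number of half twists
below the block `B` -/
def aAdj (ε : Fin m × Bool → Bool) (x : Tt m) (f : Fin 4) : Tt m :=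
  if f = 0 then
    (if up x.1.2 x.2.2 then
      (nb x.1, xor x.2.1 (tt (!x.1.2) (ε (nb x.1)) x.2.2), x.2.2) else (x.1, !x.2.1, x.2.2))
  else if f = 1 then
    (if up x.1.2 x.2.2 then (x.1, !x.2.1, x.2.2) else
      (pb x.1, xor x.2.1 (tt x.1.2 (ε x.1) x.2.2), x.2.2))
  else if f = 2 then (x.1, x.2.1, x.2.2 + 1)
  else (x.1, x.2.1, x.2.2 - 1)

/-- the gluing map at the face opposite to `f` -/
def aPerm (ε : Fin m × Bool → Bool) (x : Tt m) (f : Fin 4) : Equiv.Perm (Fin 4) :=
  if f = 0 then (if up x.1.2 x.2.2 then pm (tt (!x.1.2) (ε (nb x.1)) x.2.2) else 1)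
  else if f = 1 then (if up x.1.2 x.2.2 then 1 else pm (tt x.1.2 (ε x.1) x.2.2))
  else Equiv.swap 2 3

theorem up_not (e : Bool) (i : Fin 4) : up (!e) i = !up e i := by revert e i; decide
theorem pm_zero (w : Bool) : pm w 0 = 1 := by revert w; decide
theorem pm_one (w : Bool) : pm w 1 = 0 := by revert w; decide
theorem pm_inv (w : Bool) : (pm w)⁻¹ = pm w := by revert w; decide

theorem aAdj_adj (ε : Fin m × Bool → Bool) (x : Tt m) (f : Fin 4) :
    aAdj ε (aAdj ε x f) (aPerm ε x f f) = x := by
  obtain ⟨B, s, i⟩ := x
  fin_cases f
  · by_cases h : up B.2 i = true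
    · simp [aAdj, aPerm, h, pm_zero, nb_snd, pb_nb, up_not]
    · simp only [Bool.not_eq_true] at h
      simp [aAdj, aPerm, h]
  · by_cases h : up B.2 i = true
    · simp [aAdj, aPerm, h]
    · simp only [Bool.not_eq_true] at h
      simp [aAdj, aPerm, h, pm_one, pb_snd, nb_pb, up_not]
  · simp [aAdj, aPerm]
  · simp [aAdj, aPerm]

theorem aPerm_perm (ε : Fin m × Bool → Bool) (x : Tt m) (f : Fin 4) :
    aPerm ε (aAdj ε x f) (aPerm ε x f f) = (aPerm ε x f)⁻¹ := by
  obtain ⟨B, s, i⟩ := x
  fin_cases f
  · by_cases h : up B.2 i = true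
    · simp [aAdj, aPerm, h, pm_zero, nb_snd, up_not, pm_inv]
    · simp only [Bool.not_eq_true] at h
      simp [aAdj, aPerm, h]
  · by_cases h : up B.2 i = true
    · simp [aAdj, aPerm, h]
    · simp only [Bool.not_eq_true] at h
      simp [aAdj, aPerm, h, pm_one, pb_snd, nb_pb, up_not, pm_inv]
  · simp [aPerm]
  · simp [aPerm]

theorem a_no_fix (ε : Fin m × Bool → Bool) (x : Tt m) (f : Fin 4) :
    ¬ (aAdj ε x f = x ∧ aPerm ε x f f = f) := by
  obtain ⟨B, s, i⟩ := x
  fin_cases f
  · by_cases h : up B.2 i = true
    · simp [aAdj, aPerm, h, pm_zero]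
    · simp only [Bool.not_eq_true] at h
      simp [aAdj, aPerm, h]
  · by_cases h : up B.2 i = true
    · simp [aAdj, aPerm, h]
    · simp only [Bool.not_eq_true] at h
      simp [aAdj, aPerm, h, pm_one]
  · simp [aAdj, aPerm]
  · simp [aAdj, aPerm]

end Pool.Agent.Helper67.Aug
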