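import Pool.Agent.Helper67.Aug.Geo

/-! # The triangulation of the complement of the augmented closed 3-braid of a word -/

namespace Pool.Agent.Helper67.Aug
open Finset Pool.Agent.Helper5.TV Pool.Agent.Helper52.OC

/-- is the number of half twists below the block `B` odd? Below the block `(p, false)` there is the
syllable `σ₁^{a_p}`, below the block `(p, true)` the syllable `σ₂^{b_p}`. -/
def odds (w : List (ℤ × ℤ)) (B : Fin w.length × Bool) : Bool :=
  decide (Odd (if B.2 then (w.get B.1).2 else (w.get B.1).1))

/-- the ideal triangulation of the complement of the augmented closed 3-braid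
`σ₁^{a₁} σ₂^{b₁} ⋯ σ₁^{a_m} σ₂^{b_m}` with its axis, for `w = [(a₁, b₁), …, (a_m, b_m)]` -/
def augTri (w : List (ℤ × ℤ)) : IdealTri := aTri (odds w)

/-- its complete hyperbolic structure: `4m` regular ideal octahedra -/
noncomputable def augStructure (w : List (ℤ × ℤ)) : IdealStructure (augTri w) := aStructure (odds w)

theorem augStructure_volume (w : List (ℤ × ℤ)) :
    (augStructure w).volume = 4 * w.length * (8 * lobachevsky (Real.pi/4)) :=
  aStructure_volume (odds w)

end Pool.Agent.Helper67.Aug
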